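import Pool.Agent.Run7.h696.CF.Iface3
import Pool.Agent.Run7.h882.CF.RES

/-!
# Project CF (helper696), piece MOBA: the algebraic part of the substitution `z ↦ c z / (1 - g z)`
-/

set_option autoImplicit false

open PowerSeries Matrix
open Pool.Agent.Y113 hiding Bm
open Pool.Agent.Y120.GF Pool.Agent.Y120.GH Pool.Agent.Y119.HZ
open Pool.Agent.Y119.HY (cm E Hf Yf Vr ev)
open Pool.Agent.Run7.h225.HG Pool.Agent.Run7.h696.CF

namespace Pool.Agent.Run7.h639.CF

/-- the shift as a ring homomorphism -/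
noncomputable def SF (g : ℕ) : ℚ⟦X⟧ →+* ℚ⟦X⟧ := (substAlgHom (R := ℚ) (sh_sub g)).toRingHom

lemma SF_apply (g : ℕ) (f : ℚ⟦X⟧) : SF g f = sf g f := by
  rw [sf, ← coe_substAlgHom (sh_sub g)]
  rfl

lemma sf_C (g : ℕ) (a : ℚ) : sf g (C a) = C a := by
  rw [sf, ← coe_substAlgHom (sh_sub g)]
  exact (substAlgHom (R := ℚ) (sh_sub g)).commutes a

lemma sf_X (g : ℕ) : sf g X = sh g := subst_X (sh_sub g)

lemma coeff_zero_sf (g : ℕ) (f : ℚ⟦X⟧) : coeff 0 (sf g f) = coeff 0 f := by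
  have h1 : f = C (coeff 0 f) + (f - C (coeff 0 f)) := by ring
  have h2 : sf g f = C (coeff 0 f) + sf g (f - C (coeff 0 f)) := by
    conv_lhs => rw [h1]
    rw [← SF_apply, map_add, SF_apply, SF_apply, sf_C]
  rw [h2, map_add, coeff_zero_C]
  have h3 : coeff 0 (sf g (f - C (coeff 0 f))) = 0 := by
    rw [sf, coeff_zero_eq_constantCoeff_apply]
    refine constantCoeff_subst_eq_zero ?_ _ ?_
    · have h : coeff 0 (sh g) = 0 := by
        rw [sh, coeff_mk]
        simp
      rw [coeff_zero_eq_constantCoeff_apply] at h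
      exact h
    · rw [← coeff_zero_eq_constantCoeff_apply, map_sub, coeff_zero_C, sub_self]
  rw [h3, add_zero]

variable {n : ℕ} {N : Matrix (Fin n) (Fin n) ℚ}

lemma km_pow (N : Matrix (Fin n) (Fin n) ℚ) (l : ℕ) : km N ^ l = (N ^ l).map (C (R := ℚ)) := by
  unfold km
  rw [← map_pow]
  rfl

lemma ES_term (N : Matrix (Fin n) (Fin n) ℚ) (f : ℚ⟦X⟧) (l : ℕ) :
    (C (1 / (l.factorial : ℚ)) * f ^ l) • (N ^ l).map (C (R := ℚ)) = ((l.factorial : ℚ)⁻¹) • (f • km N) ^ l := by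
  rw [smul_pow, km_pow]
  ext1 i j
  rw [Matrix.smul_apply, Matrix.smul_apply, Matrix.smul_apply, smul_eq_mul, smul_eq_mul, PowerSeries.smul_eq_C_mul,
    one_div, mul_assoc]

lemma smul_km_nil (hN : N ^ n = 0) (f : ℚ⟦X⟧) : (f • km N) ^ n = 0 := by
  rw [smul_pow, km_pow, hN]
  ext1 i j
  simp

/-- `ES` is the exponential -/
lemma ES_exp (hN : N ^ n = 0) (f : ℚ⟦X⟧) : ES N f = IsNilpotent.exp (f • km N) := by
  rw [IsNilpotent.exp_eq_sum (smul_km_nil hN f)]
  unfold ES
  exact Finset.sum_congr rfl fun l _ => ES_term N f l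

lemma ES_add (hN : N ^ n = 0) (f f' : ℚ⟦X⟧) : ES N (f + f') = ES N f * ES N f' := by
  rw [ES_exp hN, ES_exp hN, ES_exp hN, add_smul]
  refine IsNilpotent.exp_add_of_commute ?_ ⟨n, smul_km_nil hN f⟩ ⟨n, smul_km_nil hN f'⟩
  exact ((Commute.refl (km N)).smul_left f).smul_right f'

lemma ES_zero (hN : N ^ n = 0) : ES N 0 = 1 := by
  rw [ES_exp hN, zero_smul, IsNilpotent.exp_zero]

lemma ES_comm (N : Matrix (Fin n) (Fin n) ℚ) (f : ℚ⟦X⟧) : km N * ES N f = ES N f * km N := by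
  unfold ES
  rw [Finset.mul_sum, Finset.sum_mul]
  refine Finset.sum_congr rfl fun l _ => ?_
  rw [← km_pow, Matrix.mul_smul, Matrix.smul_mul, ← pow_succ', ← pow_succ]

/-- the derivative of the exponential -/
lemma th_ES (hN : N ^ n = 0) (f : ℚ⟦X⟧) : th (ES N f) = (X * d⁄dX ℚ f) • (km N * ES N f) := by
  have hsum : ∀ (s : Finset ℕ) (F : ℕ → Matrix (Fin n) (Fin n) ℚ⟦X⟧), th (∑ l ∈ s, F l) = ∑ l ∈ s, th (F l) := by
    intro s F
    ext1 i j
    unfold Pool.Agent.Y119.HZ.th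
    rw [Matrix.of_apply, Matrix.sum_apply, Matrix.sum_apply, map_sum, Finset.mul_sum]
    rfl
  have hterm : ∀ l : ℕ, th ((C (1 / (l.factorial : ℚ)) * f ^ l) • (N ^ l).map (C (R := ℚ))) =
      (X * d⁄dX ℚ (C (1 / (l.factorial : ℚ)) * f ^ l)) • km N ^ l := by
    intro l
    rw [← km_pow]
    ext1 i j
    unfold Pool.Agent.Y119.HZ.th
    rw [Matrix.of_apply, Matrix.smul_apply, Matrix.smul_apply, smul_eq_mul, smul_eq_mul, km_pow, Matrix.map_apply,
      Derivation.leibniz, PowerSeries.derivative_C]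
    simp only [smul_eq_mul, mul_zero, zero_add]
    ring
  have hd : ∀ l : ℕ, d⁄dX ℚ (C (1 / ((l + 1).factorial : ℚ)) * f ^ (l + 1)) =
      (C (1 / (l.factorial : ℚ)) * f ^ l) * d⁄dX ℚ f := by
    intro l
    rw [Derivation.leibniz, PowerSeries.derivative_C, Derivation.leibniz_pow, Nat.add_sub_cancel]
    simp only [smul_eq_mul, nsmul_eq_mul, mul_zero, add_zero]
    have h1 : (C (1 / ((l + 1).factorial : ℚ)) : ℚ⟦X⟧) * ((l + 1 : ℕ) : ℚ⟦X⟧) = C (1 / (l.factorial : ℚ)) := by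
      have h2 : ((l + 1 : ℕ) : ℚ⟦X⟧) = C ((l + 1 : ℕ) : ℚ) := by rw [map_natCast]
      rw [h2, ← map_mul]
      congr 1
      rw [Nat.factorial_succ]
      have h3 : ((l + 1 : ℕ) : ℚ) ≠ 0 := by positivity
      have h4 : ((l.factorial : ℕ) : ℚ) ≠ 0 := by positivity
      push_cast at h3 ⊢
      field_simp
    rw [← h1]
    ring
  have hS : th (ES N f) = ∑ l ∈ Finset.range n, (X * d⁄dX ℚ (C (1 / (l.factorial : ℚ)) * f ^ l)) • km N ^ l := by
    unfold ES
    rw [hsum]
    exact Finset.sum_congr rfl fun l _ => hterm l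
  have hR : (X * d⁄dX ℚ f) • (km N * ES N f) =
      ∑ l ∈ Finset.range n, (X * d⁄dX ℚ (C (1 / ((l + 1).factorial : ℚ)) * f ^ (l + 1))) • km N ^ (l + 1) := by
    unfold ES
    rw [Finset.mul_sum, Finset.smul_sum]
    refine Finset.sum_congr rfl fun l _ => ?_
    rw [← km_pow, Matrix.mul_smul, ← pow_succ', smul_smul, hd]
    congr 1
    ring
  rw [hS, hR]
  have h1 := Finset.sum_range_succ (fun l => (X * d⁄dX ℚ (C (1 / (l.factorial : ℚ)) * f ^ l)) • km N ^ l) n
  have h2 := Finset.sum_range_succ' (fun l => (X * d⁄dX ℚ (C (1 / (l.factorial : ℚ)) * f ^ l)) • km N ^ l) n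
  have h3 : km N ^ n = 0 := by
    rw [km_pow, hN]
    ext1 i j
    simp
  rw [h3, smul_zero, add_zero] at h1
  have h4 : (X * d⁄dX ℚ (C (1 / ((0 : ℕ).factorial : ℚ)) * f ^ 0)) • km N ^ 0 = 0 := by
    rw [pow_zero, mul_one, PowerSeries.derivative_C, mul_zero, zero_smul]
  rw [h4, add_zero] at h2
  rw [← h1, h2]

/-- the derivative of a shift -/
lemma sf_th (g : ℕ) (f : ℚ⟦X⟧) : (1 - (g : ℚ⟦X⟧) * X) * (X * d⁄dX ℚ (sf g f)) = sf g (X * d⁄dX ℚ f) := by
  have h1 := sf_der g f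
  rw [ps_Pg] at h1
  have h2 : (1 - (g : ℚ⟦X⟧) * X) * sh g = X := Pool.Agent.Y120.GF.sh_eq g
  rw [sf_mul, sf_X, ← h1]
  calc (1 - (g : ℚ⟦X⟧) * X) * (X * d⁄dX ℚ (sf g f)) =
      (1 - (g : ℚ⟦X⟧) * X) * (((1 - (g : ℚ⟦X⟧) * X) * sh g) * d⁄dX ℚ (sf g f)) := by rw [h2]
    _ = _ := by ring

lemma coeff_zero_mul' (f h : ℚ⟦X⟧) : coeff 0 (f * h) = coeff 0 f * coeff 0 h := by
  simp only [coeff_zero_eq_constantCoeff_apply, map_mul]

lemma coeff_zero_ES (f : ℚ⟦X⟧) (hf : coeff 0 f = 0) (i j : Fin n) : coeff 0 (ES N f i j) = if i = j then 1 else 0 := by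
  have hn : 0 < n := i.pos
  unfold ES
  rw [Matrix.sum_apply, map_sum, Finset.sum_eq_single 0]
  · rw [Matrix.smul_apply, smul_eq_mul, pow_zero, pow_zero, Matrix.map_apply, Matrix.one_apply, Nat.factorial_zero]
    split_ifs with h
    · simp
    · simp
  · intro l _ hl
    rw [Matrix.smul_apply, smul_eq_mul, coeff_zero_mul', coeff_zero_mul']
    have h1 : coeff 0 (f ^ l) = 0 := by
      rw [coeff_zero_eq_constantCoeff_apply, map_pow, ← coeff_zero_eq_constantCoeff_apply, hf, zero_pow hl]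
    rw [h1, mul_zero, zero_mul]
  · intro h
    exact absurd (Finset.mem_range.2 hn) h

/-- the system, as an identity of matrices -/
lemma mb_ode {B : Matrix (Fin n) (Fin n) ℚ} {H W : Matrix (Fin n) (Fin n) ℚ⟦X⟧} (h : Sys n N B H W) (g : ℕ) (c : ℚ) :
    ((1 - (g : ℚ⟦X⟧) * X) * (1 - ((g : ℚ⟦X⟧) + C c) * X)) • (th (mbH g c N H) + mbH g c N H * km N) =
      ((1 - ((g : ℚ⟦X⟧) + C c) * X) • km N + (C c * X) • km B) * mbH g c N H := by
  set G : Matrix (Fin n) (Fin n) ℚ⟦X⟧ := (rs c H).map (sf g) with hG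
  set Ex := ES N (-lg g) with hE
  set P : ℚ⟦X⟧ := 1 - (g : ℚ⟦X⟧) * X with hP
  have hmb : mbH g c N H = G * Ex := rfl
  -- the derivative of the exponential
  have h1 : P • (th Ex + Ex * km N) = km N * Ex := by
    rw [hE, th_ES h.nil, ← ES_comm N, smul_add, smul_smul, ← add_smul]
    have h2 : P * (X * d⁄dX ℚ (-lg g)) + P = 1 := by
      have h3 := lg_der g
      rw [map_neg]
      calc P * (X * -d⁄dX ℚ (lg g)) + P = -(X * (P * d⁄dX ℚ (lg g))) + P := by ring
        _ = 1 := by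
          rw [hP, h3]
          ring
    rw [h2, one_smul]
  -- the derivative of the shift
  have h2 : P • th G = (th (rs c H)).map (SF g) := by
    ext1 i j
    rw [Matrix.smul_apply, smul_eq_mul, Matrix.map_apply, SF_apply]
    exact sf_th g _
  have hkm : (km N).map (SF g) = km N := by
    ext1 i j
    rw [Matrix.map_apply, SF_apply, km_apply, sf_C]
  have hkmB : (km B).map (SF g) = km B := by
    ext1 i j
    rw [Matrix.map_apply, SF_apply, km_apply, sf_C]
  have hG' : G = (rs c H).map (SF g) := by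
    ext1 i j
    rw [hG, Matrix.map_apply, Matrix.map_apply, SF_apply]
  have h3 : P • (th (G * Ex) + G * Ex * km N) = (th (rs c H) + rs c H * km N).map (SF g) * Ex := by
    have e1 : th (G * Ex) + G * Ex * km N = th G * Ex + G * (th Ex + Ex * km N) := by
      rw [Pool.Agent.Y119.HZ.th_mul, mul_add, Matrix.mul_assoc G Ex (km N)]
      abel
    have e2 : (th (rs c H) + rs c H * km N).map (SF g) = (th (rs c H)).map (SF g) + G * km N := by
      rw [Matrix.map_add _ (map_add (SF g)), Matrix.map_mul, hkm, ← hG']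
    rw [e1, e2, smul_add, ← Matrix.smul_mul, h2, ← Matrix.mul_smul, h1, add_mul, Matrix.mul_assoc G]
  -- the rescaled system
  have h4 : (1 - C c * X : ℚ⟦X⟧) • (th (rs c H) + rs c H * km N) =
      ((1 - C c * X : ℚ⟦X⟧) • km N + (C c * X) • km B) * rs c H := by
    have h5 := SYS1.ode_sys h
    have h6 := congrArg (fun M : Matrix (Fin n) (Fin n) ℚ⟦X⟧ => M.map (PowerSeries.rescale c)) h5
    have k0 : ∀ (f : ℚ⟦X⟧) (M : Matrix (Fin n) (Fin n) ℚ⟦X⟧), (f • M).map (PowerSeries.rescale c) =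
        (PowerSeries.rescale c f) • M.map (PowerSeries.rescale c) := by
      intro f M
      ext1 i j
      rw [Matrix.map_apply, Matrix.smul_apply, Matrix.smul_apply, smul_eq_mul, smul_eq_mul, map_mul, Matrix.map_apply]
    have k1 : ∀ M : Matrix (Fin n) (Fin n) ℚ, (km M).map (PowerSeries.rescale c) = km M := by
      intro M
      ext1 i j
      rw [Matrix.map_apply, km_apply, Pool.Agent.Run7.h882.CF.rescale_C']
    have k2 : (th H).map (PowerSeries.rescale c) = th (rs c H) := by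
      ext1 i j
      rw [Matrix.map_apply]
      exact Pool.Agent.Run7.h882.CF.rescale_X_deriv c _
    have k3 : PowerSeries.rescale c (1 - X : ℚ⟦X⟧) = 1 - C c * X := by
      rw [map_sub, map_one, PowerSeries.rescale_X]
    beta_reduce at h6
    rw [k0, Matrix.map_add _ (map_add (PowerSeries.rescale c)), Matrix.map_mul, Matrix.map_mul,
      Matrix.map_add _ (map_add (PowerSeries.rescale c)), k0, k0, k1, k1, k2, k3, PowerSeries.rescale_X] at h6
    exact h6
  -- the shifted system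
  have h5 : (sf g (1 - C c * X)) • ((th (rs c H) + rs c H * km N).map (SF g)) =
      ((sf g (1 - C c * X)) • km N + (sf g (C c * X)) • km B) * G := by
    have h6 := congrArg (fun M : Matrix (Fin n) (Fin n) ℚ⟦X⟧ => M.map (SF g)) h4
    have k0 : ∀ (f : ℚ⟦X⟧) (M : Matrix (Fin n) (Fin n) ℚ⟦X⟧), (f • M).map (SF g) =
        (sf g f) • M.map (SF g) := by
      intro f M
      ext1 i j
      rw [Matrix.map_apply, Matrix.smul_apply, Matrix.smul_apply, smul_eq_mul, smul_eq_mul, map_mul, Matrix.map_apply,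
        SF_apply g f]
    beta_reduce at h6
    rw [k0, Matrix.map_mul, Matrix.map_add _ (map_add (SF g)), Matrix.map_add _ (map_add (SF g)), k0, k0, hkm, hkmB,
      ← hG'] at h6
    rw [← h6, Matrix.map_add _ (map_add (SF g))]
  have h6 : P * sf g (1 - C c * X) = 1 - ((g : ℚ⟦X⟧) + C c) * X := by
    have e1 : sf g (1 - C c * X) = 1 - C c * sh g := by
      rw [← SF_apply, map_sub, map_one, map_mul, SF_apply, SF_apply, sf_C, sf_X]
    have e2 : P * sh g = X := Pool.Agent.Y120.GF.sh_eq g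
    rw [e1]
    calc P * (1 - C c * sh g) = P - C c * (P * sh g) := by ring
      _ = _ := by
        rw [e2, hP]
        ring
  have h7 : P * sf g (C c * X) = C c * X := by
    have e2 : P * sh g = X := Pool.Agent.Y120.GF.sh_eq g
    rw [sf_mul, sf_C, sf_X]
    calc P * (C c * sh g) = C c * (P * sh g) := by ring
      _ = _ := by rw [e2]
  rw [hmb]
  calc (P * (1 - ((g : ℚ⟦X⟧) + C c) * X)) • (th (G * Ex) + G * Ex * km N)
      = (1 - ((g : ℚ⟦X⟧) + C c) * X) • (P • (th (G * Ex) + G * Ex * km N)) := by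
        rw [smul_smul, mul_comm]
    _ = (P * sf g (1 - C c * X)) • ((th (rs c H) + rs c H * km N).map (SF g) * Ex) := by
        rw [h3, h6]
    _ = P • ((sf g (1 - C c * X) • (th (rs c H) + rs c H * km N).map (SF g)) * Ex) := by
        rw [Matrix.smul_mul, smul_smul]
    _ = (P • ((sf g (1 - C c * X)) • km N + (sf g (C c * X)) • km B)) * (G * Ex) := by
        rw [h5, Matrix.mul_assoc, Matrix.smul_mul]
    _ = _ := by
        rw [smul_add, smul_smul, smul_smul, h6, h7]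

/-- the denominator -/
noncomputable def Tg (g : ℕ) (c : ℚ) (D : ℕ) : Polynomial ℤ :=
  Polynomial.C (D : ℤ) * ((1 - Polynomial.C (g : ℤ) * Polynomial.X) *
    (Polynomial.C (c.den : ℤ) - Polynomial.C ((g : ℤ) * c.den + c.num) * Polynomial.X))

/-- the matrix -/
noncomputable def Ag (g : ℕ) (c : ℚ) (D : ℕ) (N' b : Fin n → Fin n → ℤ) (i j : Fin n) : Polynomial ℤ :=
  Polynomial.C ((D : ℤ) * N' i j) * (Polynomial.C (c.den : ℤ) - Polynomial.C ((g : ℤ) * c.den + c.num) * Polynomial.X) +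
    Polynomial.C (b i j) * (Polynomial.C c.num * Polynomial.X)

lemma cden (c : ℚ) : (C (c.den : ℚ) : ℚ⟦X⟧) * C c = C (c.num : ℚ) := by
  rw [← map_mul, mul_comm, Rat.mul_den_eq_num]

lemma ps_lin (g : ℕ) (c : ℚ) : ps (Polynomial.C (c.den : ℤ) - Polynomial.C ((g : ℤ) * c.den + c.num) * Polynomial.X) =
    C (c.den : ℚ) * (1 - ((g : ℚ⟦X⟧) + C c) * X) := by
  have k2 : ∀ a : ℤ, psR (Polynomial.C a) = C (a : ℚ) := Pool.Agent.Run7.h882.CF.ps_C
  rw [← psR_apply, map_sub, map_mul, Pool.Agent.Run7.h882.CF.psR_X, k2, k2]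
  have e1 : (C (((g : ℤ) * c.den + c.num : ℤ) : ℚ) : ℚ⟦X⟧) = C (c.den : ℚ) * (g + C c) := by
    rw [mul_add, cden]
    push_cast
    rw [map_add, map_mul, map_natCast, map_natCast, mul_comm]
  rw [e1]
  push_cast
  ring

lemma ps_Tg (g : ℕ) (c : ℚ) (D : ℕ) : ps (Tg g c D) = C ((D : ℚ) * c.den) *
    ((1 - (g : ℚ⟦X⟧) * X) * (1 - ((g : ℚ⟦X⟧) + C c) * X)) := by
  have k2 : ∀ a : ℤ, psR (Polynomial.C a) = C (a : ℚ) := Pool.Agent.Run7.h882.CF.ps_C
  have k1 : psR (Tg g c D) = psR (Polynomial.C (D : ℤ)) * ((1 - psR (Polynomial.C (g : ℤ)) * psR Polynomial.X) *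
      psR (Polynomial.C (c.den : ℤ) - Polynomial.C ((g : ℤ) * c.den + c.num) * Polynomial.X)) := by
    unfold Tg
    rw [map_mul, map_mul, map_sub psR 1, map_one, map_mul psR (Polynomial.C (g : ℤ))]
  rw [← psR_apply, k1, k2, k2, Pool.Agent.Run7.h882.CF.psR_X, psR_apply, ps_lin, map_mul]
  have e1 : (C ((g : ℤ) : ℚ) : ℚ⟦X⟧) = (g : ℚ⟦X⟧) := by
    push_cast
    rw [map_natCast]
  rw [e1]
  push_cast
  ring

lemma ps_Ag {B : Matrix (Fin n) (Fin n) ℚ} (g : ℕ) (c : ℚ) {D : ℕ} {N' b : Fin n → Fin n → ℤ}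
    (hN : ∀ i j, N i j = (N' i j : ℚ)) (hb : ∀ i j, (b i j : ℚ) = D * B i j) (i j : Fin n) :
    ps (Ag g c D N' b i j) = C ((D : ℚ) * c.den) *
      ((1 - ((g : ℚ⟦X⟧) + C c) * X) * C (N i j) + (C c * X) * C (B i j)) := by
  have k2 : ∀ a : ℤ, psR (Polynomial.C a) = C (a : ℚ) := Pool.Agent.Run7.h882.CF.ps_C
  have k1 : psR (Ag g c D N' b i j) = psR (Polynomial.C ((D : ℤ) * N' i j)) *
      psR (Polynomial.C (c.den : ℤ) - Polynomial.C ((g : ℤ) * c.den + c.num) * Polynomial.X) +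
      psR (Polynomial.C (b i j)) * (psR (Polynomial.C c.num) * psR Polynomial.X) := by
    unfold Ag
    rw [map_add, map_mul, map_mul psR (Polynomial.C (b i j)), map_mul psR (Polynomial.C c.num)]
  rw [← psR_apply, k1, k2, k2, k2, Pool.Agent.Run7.h882.CF.psR_X, psR_apply, ps_lin, hb, ← cden]
  push_cast
  rw [← hN, map_mul, map_mul, map_mul]
  ring

/-- **MOBA** -/
theorem p_MOBA : S_MOBA := by
  intro n N B H W h g c hc
  refine ⟨?_, ?_, ?_⟩
  · intro i j
    have h1 : ∀ i j, coeff 0 ((rs c H).map (sf g) i j) = if i = j then 1 else 0 := by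
      intro i j
      rw [Matrix.map_apply, coeff_zero_sf]
      unfold rs
      rw [Matrix.map_apply, coeff_rescale, pow_zero, one_mul]
      have h1 : coeff 0 (H i j) = (1 : Matrix (Fin n) (Fin n) ℚ) i j := by
        rw [← h.zero]
        rfl
      rw [h1, Matrix.one_apply]
    unfold mbH
    rw [Matrix.mul_apply, map_sum, Finset.sum_eq_single i]
    · rw [coeff_zero_mul', h1, if_pos rfl, one_mul, coeff_zero_ES]
      rw [map_neg, lg_zero, neg_zero]
    · intro k _ hk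
      rw [coeff_zero_mul', h1, if_neg (Ne.symm hk), zero_mul]
    · intro h
      exact absurd (Finset.mem_univ _) h
  · unfold mbH mbW
    have h1 : ES N (-lg g) * ES N (lg g) = 1 := by
      rw [← ES_add h.nil, neg_add_cancel, ES_zero h.nil]
    have h2 : (rs c H).map (sf g) * (rs c W).map (sf g) = 1 := by
      have e1 : ∀ M : Matrix (Fin n) (Fin n) ℚ⟦X⟧, M.map (sf g) = M.map (SF g) := by
        intro M
        ext1 i j
        rw [Matrix.map_apply, Matrix.map_apply, SF_apply]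
      rw [e1, e1]
      unfold rs
      rw [← Matrix.map_mul, ← Matrix.map_mul, h.inv, Matrix.map_one _ (map_zero _) (map_one _),
        Matrix.map_one _ (map_zero _) (map_one _)]
    rw [Matrix.mul_assoc, ← Matrix.mul_assoc (ES N (-lg g)), h1, Matrix.one_mul, h2]
  · obtain ⟨N', hN'⟩ := h.int
    obtain ⟨D, b, hD, hb⟩ := SYS1.exists_bg B
    refine ⟨Tg g c D, Ag g c D N' b, ?_, ?_⟩
    · intro h0
      have h1 := congrArg (Polynomial.eval 0) h0
      unfold Tg at h1
      simp at h1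
      omega
    · intro i j
      have h1 := congrFun (congrFun (mb_ode h g c) i) j
      rw [Matrix.smul_apply, Matrix.add_apply, Matrix.mul_apply, Matrix.mul_apply, smul_eq_mul] at h1
      have h2 : X * d⁄dX ℚ (mbH g c N H i j) = th (mbH g c N H) i j := rfl
      have h3 : ∑ k, mbH g c N H i k * C (N k j) = ∑ k, mbH g c N H i k * km N k j := rfl
      rw [ps_Tg, mul_assoc, h2, h3, h1, Finset.mul_sum]
      refine Finset.sum_congr rfl fun k _ => ?_
      rw [ps_Ag g c hN' hb, Matrix.add_apply, Matrix.smul_apply, Matrix.smul_apply, smul_eq_mul, smul_eq_mul, km_apply,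
        km_apply]
      ring

end Pool.Agent.Run7.h639.CF
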