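import Pool.Agent.Run7.h639.CF.MOBS

/-!
# Project CF (helper696), piece MOBC: convergence and values at real points
-/

set_option autoImplicit false

open PowerSeries Matrix
open Pool.Agent.Y113 hiding Bm
open Pool.Agent.Y120.GF Pool.Agent.Y120.GH Pool.Agent.Y119.HZ
open Pool.Agent.Y119.HY (cm E Hf Yf Vr)
open Pool.Agent.Run7.h225.HG Pool.Agent.Run7.h696.CF

namespace Pool.Agent.Run7.h639.CF

/-- values of a shift; adapted from `subst_val` in `Y120/G/Val.lean` -/
theorem sf_val {t : ℝ} {g : ℕ} (htg : (g : ℝ) < t) {f : ℚ⟦X⟧} (hf : Cv (t - g) f) :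
    Cv t (sf g f) ∧ Pool.Agent.Y113.ev t (sf g f) = Pool.Agent.Y113.ev (t - g) f := by
  have hg0 : (0 : ℝ) ≤ g := by positivity
  have ht0 : 0 < t := by linarith
  set σ : ℝ := 1 / (t - g) with hσ
  have hσ0 : 0 < σ := by
    rw [hσ]
    have : 0 < t - g := by linarith
    positivity
  -- the double family
  obtain ⟨a, ha⟩ : ∃ a : ℕ → ℕ → ℝ, ∀ d m, a d m =
    ((coeff d f : ℚ) : ℝ) * (((coeff m (sh g ^ d) : ℚ) : ℝ) * (1 / t) ^ m) := ⟨_, fun _ _ => rfl⟩
  have hcv : ∀ d, Cv t (sh g ^ d) := fun d => (sh_cv htg).pow ht0 d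
  have hev : ∀ d, ∑' m, (((coeff m (sh g ^ d) : ℚ) : ℝ) * (1 / t) ^ m) = σ ^ d := by
    intro d
    have := (sh_cv htg).ev_pow ht0 d
    rw [ev_sh htg] at this
    exact this
  have hb0 : ∀ d m, 0 ≤ ((coeff m (sh g ^ d) : ℚ) : ℝ) * (1 / t) ^ m := by
    intro d m
    have : (0 : ℝ) ≤ ((coeff m (sh g ^ d) : ℚ) : ℝ) := by exact_mod_cast sh_pow_nonneg d m
    positivity
  have hsumn : Summable (fun p => ‖Function.uncurry a p‖) := by
    have h0 : 0 ≤ fun p : ℕ × ℕ => ‖Function.uncurry a p‖ := fun p => norm_nonneg _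
    rw [summable_prod_of_nonneg h0]
    have h1 : ∀ d m, ‖Function.uncurry a (d, m)‖ =
        |((coeff d f : ℚ) : ℝ)| * (((coeff m (sh g ^ d) : ℚ) : ℝ) * (1 / t) ^ m) := by
      intro d m
      rw [Function.uncurry_apply_pair, ha, norm_mul, Real.norm_eq_abs, Real.norm_of_nonneg (hb0 d m)]
    constructor
    · intro d
      simp only [h1]
      exact ((hcv d).summable ht0).mul_left _
    · simp only [h1, tsum_mul_left, hev]
      exact hf
  have hsum : Summable (Function.uncurry a) := Summable.of_norm hsumn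
  have hcomm := hsum.tsum_comm
  have hL : ∑' (d : ℕ) (m : ℕ), a d m = ∑' m : ℕ, ((coeff m f : ℚ) : ℝ) * σ ^ m := by
    refine tsum_congr fun d => ?_
    rw [tsum_congr (ha d), tsum_mul_left, hev]
  have hX : X ∣ sh g := by
    rw [X_dvd_iff, ← coeff_zero_eq_constantCoeff_apply, sh, coeff_mk]
    simp
  have hz : ∀ d m, m < d → coeff m (sh g ^ d) = 0 := by
    intro d m hmd
    have h1 : X ^ d ∣ sh g ^ d := pow_dvd_pow_of_dvd hX d
    exact X_pow_dvd_iff.1 h1 m hmd
  have hR : ∀ m, ((coeff m (sf g f) : ℚ) : ℝ) * (1 / t) ^ m = ∑' d, a d m := by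
    intro m
    rw [sf, coeff_subst' (sh_sub g), finsum_eq_sum_of_support_subset (s := Finset.range (m + 1))]
    · rw [tsum_eq_sum (s := Finset.range (m + 1))]
      · rw [Rat.cast_sum, Finset.sum_mul]
        refine Finset.sum_congr rfl fun d _ => ?_
        rw [ha, smul_eq_mul]
        push_cast
        ring
      · intro d hd
        rw [ha, hz d m (by simpa using hd)]
        simp
    · intro d hd
      simp only [Function.mem_support, smul_eq_mul, ne_eq, mul_eq_zero, not_or] at hd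
      simp only [Finset.coe_range, Set.mem_Iio]
      by_contra hlt
      exact hd.2 (hz d m (by omega))
  refine ⟨?_, ?_⟩
  · have h1 := hsumn.prod_symm
    have h2 : Summable fun m => ∑' d, ‖a d m‖ := h1.prod
    unfold Cv
    refine Summable.of_nonneg_of_le (fun m => by positivity) (fun m => ?_) h2
    have h3 : |((coeff m (sf g f) : ℚ) : ℝ)| * (1 / t) ^ m =
        ‖((coeff m (sf g f) : ℚ) : ℝ) * (1 / t) ^ m‖ := by
      rw [norm_mul, Real.norm_eq_abs, Real.norm_of_nonneg (by positivity)]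
    rw [h3, hR m]
    exact norm_tsum_le_tsum_norm (h1.prod_factor m)
  · unfold Pool.Agent.Y113.ev
    rw [tsum_congr hR, ← hσ, ← hL]
    exact hcomm

/-- values of a rescaled series -/
theorem rescale_val {s : ℝ} {c : ℚ} (hc : 0 < c) (f : ℚ⟦X⟧) (hf : Cv (s / c) f) (hs : 0 < s) :
    Cv s (PowerSeries.rescale c f) ∧
      Pool.Agent.Y113.ev s (PowerSeries.rescale c f) = Pool.Agent.Y113.ev (s / c) f := by
  have hc' : (0 : ℝ) < (c : ℝ) := by exact_mod_cast hc
  have h0 : ∀ m : ℕ, (1 / (s / (c : ℝ))) ^ m = (c : ℝ) ^ m * (1 / s) ^ m := by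
    intro m
    rw [← mul_pow]
    congr 1
    field_simp
  refine ⟨?_, ?_⟩
  · unfold Cv at hf ⊢
    refine hf.congr fun m => ?_
    rw [coeff_rescale, h0]
    push_cast
    rw [abs_mul, abs_of_pos (pow_pos hc' m)]
    ring
  · unfold Pool.Agent.Y113.ev
    refine tsum_congr fun m => ?_
    rw [coeff_rescale, h0]
    push_cast
    ring

section
variable {n : ℕ} {N : Matrix (Fin n) (Fin n) ℚ} {H : Matrix (Fin n) (Fin n) ℚ⟦X⟧} {t : ℝ} {g : ℕ} {c : ℚ}

lemma neg_lg_cv (ht : (g : ℝ) < t) : Cv t (-lg g) := by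
  have h1 := lg_cv ht
  unfold Cv at h1 ⊢
  refine h1.congr fun m => ?_
  rw [map_neg]
  push_cast
  rw [abs_neg]

lemma ev_neg_lg (ht : (g : ℝ) < t) : Pool.Agent.Y113.ev t (-lg g) = -Real.log (1 - g / t) := by
  rw [← ev_lg ht]
  unfold Pool.Agent.Y113.ev
  rw [← tsum_neg]
  refine tsum_congr fun m => ?_
  rw [map_neg]
  push_cast
  ring

lemma ES_cv (ht : (g : ℝ) < t) (i j : Fin n) : Cv t (ES N (-lg g) i j) := by
  have ht0 : 0 < t := lt_of_le_of_lt (by positivity) ht
  unfold ES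
  rw [Matrix.sum_apply]
  refine Cv.sum ht0 _ _ fun l _ => ?_
  rw [Matrix.smul_apply, smul_eq_mul, Matrix.map_apply]
  exact ((Cv.C _).mul ht0 ((neg_lg_cv ht).pow ht0 l)).mul ht0 (Cv.C _)

lemma ev_ES (ht : (g : ℝ) < t) (i j : Fin n) : ((Pool.Agent.Y113.ev t (ES N (-lg g) i j) : ℝ) : ℂ) =
    E (cm N) (-((Real.log (1 - g / t) : ℝ) : ℂ)) i j := by
  have ht0 : 0 < t := lt_of_le_of_lt (by positivity) ht
  unfold ES E
  rw [Matrix.sum_apply, Matrix.sum_apply, Cv.ev_sum ht0]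
  · push_cast
    refine Finset.sum_congr rfl fun l _ => ?_
    rw [Matrix.smul_apply, Matrix.smul_apply, smul_eq_mul, smul_eq_mul, Matrix.map_apply,
      Cv.ev_mul ht0 ((Cv.C _).mul ht0 ((neg_lg_cv ht).pow ht0 l)) (Cv.C _),
      Cv.ev_mul ht0 (Cv.C _) ((neg_lg_cv ht).pow ht0 l), (neg_lg_cv ht).ev_pow ht0, ev_C, ev_C, ev_neg_lg ht,
      ← Pool.Agent.Y119.HY.cm_pow, Pool.Agent.Y119.HY.cm_apply]
    push_cast
    ring
  · intro l _
    rw [Matrix.smul_apply, smul_eq_mul, Matrix.map_apply]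
    exact ((Cv.C _).mul ht0 ((neg_lg_cv ht).pow ht0 l)).mul ht0 (Cv.C _)

lemma G_val (hH : ∀ t : ℝ, 1 < t → ∀ i j, Cv t (H i j)) (hc : 0 < c) (ht : (g : ℝ) + c < t) (i j : Fin n) :
    Cv t ((rs c H).map (sf g) i j) ∧
      Pool.Agent.Y113.ev t ((rs c H).map (sf g) i j) = Pool.Agent.Y113.ev ((t - g) / c) (H i j) := by
  have hc' : (0 : ℝ) < (c : ℝ) := by exact_mod_cast hc
  have hs : 0 < t - g := by linarith
  have h1 : 1 < (t - g) / c := by
    rw [lt_div_iff₀ hc']
    linarith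
  have h2 := rescale_val hc (H i j) (hH _ h1 i j) hs
  have h3 := sf_val (g := g) (t := t) (by linarith) h2.1
  unfold rs
  rw [Matrix.map_apply, Matrix.map_apply]
  exact ⟨h3.1, h3.2.trans h2.2⟩

end

/-- **MOBC** -/
theorem p_MOBC : S_MOBC := by
  intro n N H hH g c hc
  have hc' : (0 : ℝ) < (c : ℝ) := by exact_mod_cast hc
  have hg0 : (0 : ℝ) ≤ g := by positivity
  refine ⟨fun t ht i j => ?_, fun x hx hx1 => ?_⟩
  · have ht0 : 0 < t := by linarith
    unfold mbH
    rw [Matrix.mul_apply]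
    exact Cv.sum ht0 _ _ fun k _ => (G_val hH hc ht i k).1.mul ht0 (ES_cv (by linarith) k j)
  · have ht : (g : ℝ) + c < 1 / x := by
      rw [lt_div_iff₀ hx]
      exact hx1
    have ht0 : 0 < 1 / x := by positivity
    have htg : (g : ℝ) < 1 / x := by linarith
    have hgx : (g : ℝ) * x < 1 := by nlinarith
    have hxx : (1 : ℝ) / (1 / x) = x := one_div_one_div x
    ext1 i j
    have h1 := SYS2.ev_H (H := mbH g c N H) (1 / x) i j
    rw [hxx] at h1
    rw [← h1]
    unfold mbH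
    rw [Matrix.mul_apply, Matrix.mul_apply, Cv.ev_sum ht0 _ _ fun k _ =>
      (G_val hH hc ht i k).1.mul ht0 (ES_cv (by linarith) k j)]
    push_cast
    refine Finset.sum_congr rfl fun k _ => ?_
    rw [Cv.ev_mul ht0 (G_val hH hc ht i k).1 (ES_cv (by linarith) k j), (G_val hH hc ht i k).2]
    have h2 := SYS2.ev_H (H := H) ((1 / x - g) / c) i k
    have h3 := ev_ES (N := N) htg k j
    rw [Complex.ofReal_mul, h2, h3]
    congr 2
    · push_cast
      have e1 : (x : ℂ) ≠ 0 := by exact_mod_cast hx.ne'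
      have e2 : (c : ℂ) ≠ 0 := by exact_mod_cast hc.ne'
      have e3 : (1 : ℂ) - g * x ≠ 0 := by
        have : (1 : ℝ) - g * x ≠ 0 := by linarith
        exact_mod_cast this
      have e4 : (1 / (x : ℂ) - g) ≠ 0 := by
        have : (1 : ℝ) / x - g ≠ 0 := by linarith
        exact_mod_cast this
      field_simp
    · rw [div_div_eq_mul_div, div_one, Complex.ofReal_log (by linarith)]
      push_cast
      rfl

end Pool.Agent.Run7.h639.CF
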