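import Pool.Agent.Run7.h639.CF.MOBA

/-!
# Project CF (helper696), piece MOBS: sizes and denominators
-/

set_option autoImplicit false

open PowerSeries Matrix
open Pool.Agent.Y113 hiding Bm
open Pool.Agent.Y120.GF Pool.Agent.Y120.GH Pool.Agent.Y119.HZ
open Pool.Agent.Y119.HY (cm E Hf Yf Vr ev)
open Pool.Agent.Run7.h225.HG Pool.Agent.Run7.h696.CF

namespace Pool.Agent.Run7.h639.CF

lemma SDp.toC {A : ℝ} {f : ℚ⟦X⟧} (h : SDp A f) : SDc f := by
  obtain ⟨k, hk⟩ := pow_unbounded_of_one_lt A (show (1 : ℝ) < 2 by norm_num)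
  exact ⟨k, h.mono hk.le⟩

lemma SDc_rescale' {c : ℚ} {f : ℚ⟦X⟧} (h : SDc f) : SDc (PowerSeries.rescale c f) := by
  obtain ⟨n, hn1, hn2⟩ := h
  refine Pool.Agent.Y119.HY.sdc_of ⟨(|(c : ℝ)| + 1) * 2 ^ n, fun m => ?_⟩ ⟨2 ^ n * c.den, fun m => ?_⟩
  · rw [coeff_rescale]
    push_cast
    rw [abs_mul, abs_pow, mul_pow]
    have h1 : |(c : ℝ)| ^ m ≤ (|(c : ℝ)| + 1) ^ (m + 1) := by
      have h0 : 0 ≤ |(c : ℝ)| := abs_nonneg _
      exact (pow_le_pow_left₀ h0 (by linarith) m).trans (pow_le_pow_right₀ (by linarith) (by omega))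
    exact mul_le_mul h1 (hn1 m) (abs_nonneg _) (by positivity)
  · obtain ⟨d, hd0, hd, hd'⟩ := hn2 m
    have hden : (1 : ℝ) ≤ c.den := by exact_mod_cast c.den_pos
    refine ⟨d * c.den ^ m, Nat.mul_pos hd0 (pow_pos c.den_pos m), ?_, fun j hj => ?_⟩
    · push_cast
      rw [mul_pow]
      exact mul_le_mul hd (pow_le_pow_right₀ hden (by omega)) (by positivity) (by positivity)
    · obtain ⟨a, ha⟩ := hd' j hj
      refine ⟨a * c.num ^ j * (c.den : ℤ) ^ (m - j), ?_⟩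
      rw [coeff_rescale]
      have e1 : (c.den : ℚ) ^ m = (c.den : ℚ) ^ j * (c.den : ℚ) ^ (m - j) := by
        rw [← pow_add]; congr 1; omega
      have e2 : (c.den : ℚ) ^ j * c ^ j = (c.num : ℚ) ^ j := by
        rw [← mul_pow, mul_comm, Rat.mul_den_eq_num]
      push_cast
      rw [e1, ← ha, ← e2]
      ring

lemma SDc_sf {f : ℚ⟦X⟧} (h : SDc f) (g : ℕ) : SDc (sf g f) := by
  obtain ⟨n, hn⟩ := h
  exact SDp.toC (hn.subst_sh g)

lemma SDc_pow {f : ℚ⟦X⟧} (h : SDc f) (l : ℕ) : SDc (f ^ l) := by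
  induction l with
  | zero => rw [pow_zero]; exact SDc.one
  | succ l ih => rw [pow_succ]; exact ih.mul h

lemma SDc_neg {f : ℚ⟦X⟧} (h : SDc f) : SDc (-f) := by
  have h1 := (SDc.int (-1)).mul h
  have e : ((-1 : ℤ) : ℚ⟦X⟧) * f = -f := by push_cast; ring
  rwa [e] at h1

lemma SDc_lg (g : ℕ) : SDc (lg g) := SDp.toC (SDp.lg g)

lemma SDc_ES {n : ℕ} (N : Matrix (Fin n) (Fin n) ℚ) {f : ℚ⟦X⟧} (h : SDc f) (i j : Fin n) : SDc (ES N f i j) := by
  unfold ES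
  rw [Matrix.sum_apply]
  refine SDc.sum' _ fun l _ => ?_
  rw [Matrix.smul_apply, smul_eq_mul, Matrix.map_apply]
  exact ((SDc_C _).mul (SDc_pow h l)).mul (SDc_C _)

/-- the sizes of a product; the hypothesis on the second matrix is used for all its entries -/
theorem SDc_mbH {n : ℕ} (N : Matrix (Fin n) (Fin n) ℚ) {H : Matrix (Fin n) (Fin n) ℚ⟦X⟧} (h : ∀ i j, SDc (H i j))
    (g : ℕ) (c : ℚ) (i j : Fin n) : SDc (mbH g c N H i j) := by
  unfold mbH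
  refine SDc_matmul (fun i j => ?_) (fun i j => SDc_ES N (SDc_neg (SDc_lg g)) i j) i j
  rw [Matrix.map_apply]
  exact SDc_sf (SDc_rescale' (h i j)) g

theorem SDc_mbW {n : ℕ} (N : Matrix (Fin n) (Fin n) ℚ) {H : Matrix (Fin n) (Fin n) ℚ⟦X⟧} (h : ∀ i j, SDc (H i j))
    (g : ℕ) (c : ℚ) (i j : Fin n) : SDc (mbW g c N H i j) := by
  unfold mbW
  refine SDc_matmul (fun i j => SDc_ES N (SDc_lg g) i j) (fun i j => ?_) i j
  rw [Matrix.map_apply]
  exact SDc_sf (SDc_rescale' (h i j)) g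

/-- **MOBS** -/
theorem p_MOBS : S_MOBS := fun _ N _ h g c _ i j => ⟨SDc_mbH N h g c i j, SDc_mbW N h g c i j⟩

end Pool.Agent.Run7.h639.CF
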