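import Pool.Agent.Run7.h639.CF.MOBC
import Pool.Agent.Run7.h696.CF.Iface4
import Pool.Agent.Y120.H.Cx

/-!
# Project CF (helper696), piece MOBV: values at complex points
-/

set_option autoImplicit false

open PowerSeries Matrix
open Pool.Agent.Y113 hiding Bm
open Pool.Agent.Y120.GF Pool.Agent.Y120.GH Pool.Agent.Y119.HZ
open Pool.Agent.Y119.HY (cm E Hf Yf Vr)
open Pool.Agent.Run7.h225.HG Pool.Agent.Run7.h696.CF

namespace Pool.Agent.Run7.h639.CF

/-- the shift of the function outside the disc; adapted from `Y120/H/Cx.lean` -/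
theorem ou_shift' {f : ℚ⟦X⟧} (g : ℕ) {t : ℂ} (htg : (g : ℝ) < ‖t‖) (hf : Cv (‖t‖ - g) f) :
    ou (cx (sf g f)) t = ou (cx f) (t - g) := by
  have hg0 : (0 : ℝ) ≤ g := by positivity
  have ht0 : 0 < ‖t‖ := by linarith
  set σ : ℝ := 1 / (‖t‖ - g) with hσ
  have hσ0 : 0 < σ := by
    rw [hσ]
    have : 0 < ‖t‖ - g := by linarith
    positivity
  obtain ⟨a, ha⟩ : ∃ a : ℕ → ℕ → ℂ, ∀ d m, a d m =
    ((coeff d f : ℚ) : ℂ) * (((coeff m (sh g ^ d) : ℚ) : ℂ) * (1 / t) ^ m) := ⟨_, fun _ _ => rfl⟩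
  have hcv : ∀ d, Cv ‖t‖ (sh g ^ d) := fun d => (sh_cv htg).pow ht0 d
  have hev : ∀ d, ∑' m, (((coeff m (sh g ^ d) : ℚ) : ℝ) * (1 / ‖t‖) ^ m) = σ ^ d := by
    intro d
    have := (sh_cv htg).ev_pow ht0 d
    rw [ev_sh htg] at this
    exact this
  have hevC : ∀ d, ∑' m, (((coeff m (sh g ^ d) : ℚ) : ℂ) * (1 / t) ^ m) = (1 / (t - g)) ^ d := by
    intro d
    have h1 := ou_pow hg0 (cx_sh_mem g) htg d
    rw [ou_sh g htg, ← map_pow] at h1
    rw [← h1]
    unfold ou inn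
    refine tsum_congr fun m => ?_
    rw [coeff_cx]
  have hb0 : ∀ d m, 0 ≤ ((coeff m (sh g ^ d) : ℚ) : ℝ) * (1 / ‖t‖) ^ m := by
    intro d m
    have : (0 : ℝ) ≤ ((coeff m (sh g ^ d) : ℚ) : ℝ) := by exact_mod_cast sh_pow_nonneg d m
    positivity
  have hsumn : Summable (fun p => ‖Function.uncurry a p‖) := by
    have h0 : 0 ≤ fun p : ℕ × ℕ => ‖Function.uncurry a p‖ := fun p => norm_nonneg _
    rw [summable_prod_of_nonneg h0]
    have h1 : ∀ d m, ‖Function.uncurry a (d, m)‖ =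
        |((coeff d f : ℚ) : ℝ)| * (((coeff m (sh g ^ d) : ℚ) : ℝ) * (1 / ‖t‖) ^ m) := by
      intro d m
      rw [Function.uncurry_apply_pair, ha, norm_mul, norm_mul, norm_pow, norm_div, norm_one]
      have e1 : ∀ c : ℚ, ‖(c : ℂ)‖ = |(c : ℝ)| := by
        intro c
        have : (c : ℂ) = ((c : ℝ) : ℂ) := by push_cast; rfl
        rw [this, Complex.norm_real, Real.norm_eq_abs]
      rw [e1, e1, abs_of_nonneg (a := ((coeff m (sh g ^ d) : ℚ) : ℝ)) (by exact_mod_cast sh_pow_nonneg d m)]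
    constructor
    · intro d
      simp only [h1]
      exact ((hcv d).summable ht0).mul_left _
    · simp only [h1, tsum_mul_left, hev]
      exact hf
  have hsum : Summable (Function.uncurry a) := Summable.of_norm hsumn
  have hcomm := hsum.tsum_comm
  have hL : ∑' (d : ℕ) (m : ℕ), a d m = ou (cx f) (t - g) := by
    unfold ou inn
    refine tsum_congr fun d => ?_
    rw [tsum_congr (ha d), tsum_mul_left, hevC, coeff_cx]
  rw [← hL, ← hcomm]
  have hX : X ∣ sh g := by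
    rw [X_dvd_iff, ← coeff_zero_eq_constantCoeff_apply, sh, coeff_mk]
    simp
  have hz : ∀ d m, m < d → coeff m (sh g ^ d) = 0 := by
    intro d m hmd
    have h1 : X ^ d ∣ sh g ^ d := pow_dvd_pow_of_dvd hX d
    exact X_pow_dvd_iff.1 h1 m hmd
  unfold ou inn
  refine tsum_congr fun m => ?_
  rw [coeff_cx, sf, coeff_subst' (sh_sub g), finsum_eq_sum_of_support_subset (s := Finset.range (m + 1))]
  · rw [tsum_eq_sum (s := Finset.range (m + 1))]
    · rw [Rat.cast_sum, Finset.sum_mul]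
      refine Finset.sum_congr rfl fun d _ => ?_
      rw [ha, smul_eq_mul]
      push_cast
      ring
    · intro d hd
      rw [ha, hz d m (by simpa using hd)]
      simp
  · intro d hd
    simp only [Function.mem_support, smul_eq_mul, ne_eq, mul_eq_zero, not_or] at hd
    simp only [Finset.coe_range, Set.mem_Iio]
    by_contra hlt
    exact hd.2 (hz d m (by omega))


lemma ou_rescale {c : ℚ} (f : ℚ⟦X⟧) (s : ℂ) : ou (cx (PowerSeries.rescale c f)) s = inn (cx f) ((c : ℂ) / s) := by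
  unfold ou inn
  refine tsum_congr fun m => ?_
  rw [coeff_cx, coeff_cx, coeff_rescale, div_eq_mul_one_div (c : ℂ) s, mul_pow]
  push_cast
  ring

/-- the values of the holomorphic part -/
lemma Hf_inn {n : ℕ} (M : Matrix (Fin n) (Fin n) ℚ⟦X⟧) (z : ℂ) (i j : Fin n) :
    Hf (Hcg M) z i j = inn (cx (M i j)) z := by
  unfold Hf
  rw [Matrix.of_apply]
  unfold Pool.Agent.Y119.HY.ps inn
  refine tsum_congr fun m => ?_
  rw [coeff_cx]
  rfl

lemma inn_zero' (f : PowerSeries ℂ) : inn f 0 = coeff 0 f := by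
  unfold inn
  rw [tsum_eq_single 0]
  · rw [pow_zero, mul_one]
  · intro m hm
    rw [zero_pow hm, mul_zero]

lemma E_zero' {n : ℕ} (N : Matrix (Fin n) (Fin n) ℂ) : E N 0 = 1 := by
  ext1 i j
  have hn : 0 < n := i.pos
  unfold E
  rw [Matrix.sum_apply, Finset.sum_eq_single 0]
  · rw [pow_zero, pow_zero, Nat.factorial_zero, Nat.cast_one, div_one, one_smul]
  · intro l _ hl
    rw [zero_pow hl, zero_div, zero_smul, Matrix.zero_apply]
  · intro h
    exact absurd (Finset.mem_range.2 hn) h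

section
variable {n : ℕ} {N : Matrix (Fin n) (Fin n) ℚ} {H : Matrix (Fin n) (Fin n) ℚ⟦X⟧} {g : ℕ} {c : ℚ}

lemma cx_ES_mem (i j : Fin n) : cx (ES N (-lg g) i j) ∈ Cw (g : ℝ) :=
  cx_mem_of_Cv fun _ ht => ES_cv ht i j

lemma cx_G_mem (hH : ∀ t : ℝ, 1 < t → ∀ i j, Cv t (H i j)) (hc : 0 < c) (i j : Fin n) :
    cx ((rs c H).map (sf g) i j) ∈ Cw ((g : ℝ) + (c : ℝ)) :=
  cx_mem_of_Cv fun _ ht => (G_val hH hc ht i j).1

lemma Cw_mono {a b : ℝ} (hab : a ≤ b) {f : PowerSeries ℂ} (hf : f ∈ Cw a) : f ∈ Cw b := by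
  intro r hr hrb
  exact hf r hr (lt_of_le_of_lt (mul_le_mul_of_nonneg_left hab hr) hrb)

lemma ou_ES {t : ℂ} (ht : (g : ℝ) < ‖t‖) (i j : Fin n) :
    ou (cx (ES N (-lg g) i j)) t = E (cm N) (-Complex.log (1 - g / t)) i j := by
  have hg0 : (0 : ℝ) ≤ g := by positivity
  have hneg : cx (-lg g) ∈ Cw (g : ℝ) := by
    rw [map_neg]
    exact (Cw (g : ℝ)).neg_mem (cx_lg_mem g)
  have hm : ∀ l : ℕ, cx (C (1 / (l.factorial : ℚ)) * (-lg g) ^ l * C ((N ^ l) i j)) ∈ Cw (g : ℝ) := by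
    intro l
    rw [map_mul, map_mul, map_pow, cx_C, cx_C]
    exact (Cw (g : ℝ)).mul_mem ((Cw (g : ℝ)).mul_mem (C_mem _) ((Cw (g : ℝ)).pow_mem hneg l)) (C_mem _)
  have hl : ou (cx (-lg g)) t = -Complex.log (1 - g / t) := by
    rw [← ou_lg g ht]
    unfold ou inn
    rw [← tsum_neg]
    refine tsum_congr fun m => ?_
    rw [map_neg, map_neg, neg_mul]
  unfold ES E
  rw [Matrix.sum_apply, Matrix.sum_apply]
  simp only [Matrix.smul_apply, smul_eq_mul, Matrix.map_apply]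
  rw [map_sum, ou_sum hg0 _ (fun l _ => hm l) ht]
  refine Finset.sum_congr rfl fun l _ => ?_
  rw [map_mul, map_mul, map_pow, cx_C, cx_C,
    ou_mul hg0 ((Cw (g : ℝ)).mul_mem (C_mem _) ((Cw (g : ℝ)).pow_mem hneg l)) (C_mem _) ht,
    ou_mul hg0 (C_mem _) ((Cw (g : ℝ)).pow_mem hneg l) ht, ou_pow hg0 hneg ht, ou_C, ou_C, hl,
    ← Pool.Agent.Y119.HY.cm_pow, Pool.Agent.Y119.HY.cm_apply]
  push_cast
  ring

lemma ou_G (hH : ∀ t : ℝ, 1 < t → ∀ i j, Cv t (H i j)) (hc : 0 < c) {t : ℂ} (ht : (g : ℝ) + (c : ℝ) < ‖t‖)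
    (i j : Fin n) : ou (cx ((rs c H).map (sf g) i j)) t = inn (cx (H i j)) ((c : ℂ) / (t - g)) := by
  have hc' : (0 : ℝ) < (c : ℝ) := by exact_mod_cast hc
  have hs : 0 < ‖t‖ - g := by linarith
  have h1 : 1 < (‖t‖ - g) / c := by
    rw [lt_div_iff₀ hc']
    linarith
  have h2 := rescale_val hc (H i j) (hH _ h1 i j) hs
  unfold rs
  rw [Matrix.map_apply, Matrix.map_apply, ou_shift' g (by linarith) h2.1, ou_rescale]

end

/-- **MOBV** -/
theorem p_MOBV : S_MOBV := by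
  intro n N H hH g c hc z hz
  have hc' : (0 : ℝ) < (c : ℝ) := by exact_mod_cast hc
  have hg0 : (0 : ℝ) ≤ g := by positivity
  ext1 i j
  rw [Hf_inn]
  rcases eq_or_ne z 0 with rfl | hz0
  · rw [inn_zero', mul_zero, zero_div, mul_zero, sub_zero, Complex.log_one, neg_zero, E_zero', Matrix.mul_one, Hf_inn,
      inn_zero', coeff_cx, coeff_cx]
    congr 1
    unfold mbH
    rw [Matrix.mul_apply, map_sum, Finset.sum_eq_single j]
    · rw [coeff_zero_mul', coeff_zero_ES _ (by rw [map_neg, lg_zero, neg_zero]), if_pos rfl, mul_one, Matrix.map_apply,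
        coeff_zero_sf]
      unfold rs
      rw [Matrix.map_apply, coeff_rescale, pow_zero, one_mul]
    · intro k _ hk
      rw [coeff_zero_mul', coeff_zero_ES _ (by rw [map_neg, lg_zero, neg_zero]), if_neg hk, mul_zero]
    · intro h
      exact absurd (Finset.mem_univ _) h
  · have hzn : 0 < ‖z‖ := norm_pos_iff.2 hz0
    have ht : (g : ℝ) + (c : ℝ) < ‖1 / z‖ := by
      rw [norm_div, norm_one, lt_div_iff₀ hzn]
      exact hz
    have htg : (g : ℝ) < ‖1 / z‖ := by linarith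
    have h1 : inn (cx (mbH g c N H i j)) z = ou (cx (mbH g c N H i j)) (1 / z) := by
      unfold ou
      rw [one_div_one_div]
    have hgc : (0 : ℝ) ≤ (g : ℝ) + (c : ℝ) := by linarith
    have hES : ∀ k, cx (ES N (-lg g) k j) ∈ Cw ((g : ℝ) + (c : ℝ)) := fun k => Cw_mono (by linarith) (cx_ES_mem k j)
    rw [h1]
    unfold mbH
    rw [Matrix.mul_apply, Matrix.mul_apply, map_sum, ou_sum hgc _ (fun k _ => by
      rw [map_mul]
      exact (Cw _).mul_mem (cx_G_mem hH hc i k) (hES k)) ht]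
    refine Finset.sum_congr rfl fun k _ => ?_
    rw [map_mul, ou_mul hgc (cx_G_mem hH hc i k) (hES k) ht, ou_G hH hc ht, ou_ES htg, Hf_inn]
    have e0 : (1 : ℂ) - g * z ≠ 0 := by
      intro h
      have h2 : (g : ℂ) * z = 1 := (sub_eq_zero.1 h).symm
      have h3 : (g : ℝ) * ‖z‖ = 1 := by
        rw [← Complex.norm_natCast, ← norm_mul, h2, norm_one]
      nlinarith
    have e1 : (1 / z - g : ℂ) ≠ 0 := by
      intro h
      apply e0
      have h2 : (1 / z - g) * z = 0 := by rw [h, zero_mul]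
      rw [sub_mul, one_div, inv_mul_cancel₀ hz0] at h2
      exact h2
    have e2 : (c : ℂ) / (1 / z - g) = (c : ℂ) * z / (1 - g * z) := by
      field_simp
    have e3 : (g : ℂ) / (1 / z) = g * z := by
      field_simp
    rw [e2, e3]

end Pool.Agent.Run7.h639.CF
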