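import Pool.Agent.Run7.h639.CF.MOBS
import Pool.Agent.Run7.h696.CF.Iface4

/-!
# Project CF (helper696), piece NEG: reflection of a system
-/

set_option autoImplicit false

open PowerSeries Matrix
open Pool.Agent.Y113 hiding Bm
open Pool.Agent.Y120.GF Pool.Agent.Y120.GH Pool.Agent.Y119.HZ
open Pool.Agent.Y119.HY (cm E Hf Yf Vr)
open Pool.Agent.Run7.h225.HG Pool.Agent.Run7.h696.CF

namespace Pool.Agent.Run7.h639.CF

lemma ps_comp_neg (P : Polynomial ℤ) : ps (P.comp (-Polynomial.X)) = PowerSeries.rescale (-1) (ps P) := by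
  have h : psR.comp (Polynomial.compRingHom (-Polynomial.X)) = (PowerSeries.rescale (-1 : ℚ)).comp psR := by
    refine Polynomial.ringHom_ext (fun a => ?_) ?_
    · rw [RingHom.comp_apply, RingHom.comp_apply, Polynomial.coe_compRingHom_apply, Polynomial.C_comp]
      have h1 : psR (Polynomial.C a) = C (a : ℚ) := Pool.Agent.Run7.h882.CF.ps_C a
      rw [h1, Pool.Agent.Run7.h882.CF.rescale_C']
    · rw [RingHom.comp_apply, RingHom.comp_apply, Polynomial.coe_compRingHom_apply, Polynomial.X_comp, map_neg,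
        Pool.Agent.Run7.h882.CF.psR_X, PowerSeries.rescale_X]
      simp
  have h1 := congrArg (fun φ => φ P) h
  simpa [psR_apply] using h1

lemma Cv_neg {t : ℝ} {f : ℚ⟦X⟧} (h : Cv t f) : Cv t (PowerSeries.rescale (-1) f) := by
  unfold Cv at h ⊢
  refine h.congr fun m => ?_
  rw [coeff_rescale]
  push_cast
  rw [abs_mul, abs_pow, abs_neg, abs_one, one_pow, one_mul]

/-- **NEG** -/
theorem p_NEG : S_NEG := by
  intro L n N H W h
  obtain ⟨T, A, hT, hA⟩ := h.ode
  refine ⟨h.int, h.nil, ?_, ?_, ?_, ?_, ?_, ?_⟩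
  · intro i j
    unfold rs
    rw [Matrix.map_apply, coeff_rescale, pow_zero, one_mul, h.zero]
  · refine ⟨T.comp (-Polynomial.X), fun i j => (A i j).comp (-Polynomial.X), ?_, ?_⟩
    · exact fun h0 => hT (Polynomial.comp_neg_X_eq_zero_iff.1 h0)
    · intro i j
      have h1 := congrArg (fun g => PowerSeries.rescale (-1) g) (hA i j)
      simp only [map_mul, map_add, map_sum] at h1
      rw [← map_mul, Pool.Agent.Run7.h882.CF.rescale_X_deriv] at h1
      simp only [Pool.Agent.Run7.h882.CF.rescale_C', ← ps_comp_neg] at h1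
      unfold rs
      simp only [Matrix.map_apply]
      exact h1
  · unfold rs
    rw [← Matrix.map_mul, h.inv, Matrix.map_one _ (map_zero _) (map_one _)]
  · intro i j
    exact SDc_rescale' (h.sH i j)
  · intro i j
    exact SDc_rescale' (h.sW i j)
  · intro t ht i j
    exact Cv_neg (h.cv t ht i j)

end Pool.Agent.Run7.h639.CF
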